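import Pool.Agent.W52.DPTwo
import Pool.Agent.W822.PD.Stm
import Pool.Agent.H973R2.Arm1

/-!
Cut edges: the deterministic part.
-/

set_option autoImplicit false

namespace Pool.Agent.W5h49.Pin

open H974 H12S Finset H389NS H342P
open Pool.Agent.W52.DPTwo

/-- `e` is open, its ends are not joined off `e`, and both of them are joined off `e` to
distance `r`. -/
def Cut (r : ℤ) (e : Edg) (F : Set Edg) : Prop :=
  e ∈ F ∧ ¬ Reach (F \ {e}) (src e) (tgt e) ∧
    (∃ a, Far (src e) r a ∧ Reach (F \ {e}) (src e) a) ∧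
    ∃ b, Far (src e) r b ∧ Reach (F \ {e}) (tgt e) b

theorem Cut.anti {r s : ℤ} (h : s ≤ r) {e : Edg} {F : Set Edg} (hF : Cut r e F) : Cut s e F := by
  obtain ⟨h1, h2, ⟨a, h3, h4⟩, b, h5, h6⟩ := hF
  refine ⟨h1, h2, ⟨a, ?_, h4⟩, b, ?_, h6⟩
  · unfold Far at h3 ⊢; omega
  · unfold Far at h5 ⊢; omega

theorem src_in (e : Edg) (k : ℤ) (hk : 0 ≤ k) :
    inR ((src e).1 - k) ((src e).1 + k) ((src e).2 - k) ((src e).2 + k) (src e) := by
  unfold inR; omega

theorem tgt_in (e : Edg) (k : ℤ) (hk : 1 ≤ k) :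
    inR ((src e).1 - k) ((src e).1 + k) ((src e).2 - k) ((src e).2 + k) (tgt e) := by
  obtain ⟨x, y, t⟩ := e
  cases t
  · simp only [src_mk, tgt_false, inR]; omega
  · simp only [src_mk, tgt_true, inR]; omega

/-- A cut edge has four arms. -/
theorem cut_A4a {r : ℤ} {e : Edg} {F : Set Edg} {k : ℕ} (hk : 1 ≤ k) (hkr : (k : ℤ) ≤ r)
    (h : Cut r e F) : A4a (src e) 1 k F := by
  obtain ⟨-, h3, ⟨X, hX, h1⟩, Y, hY, h2⟩ := h
  have heb : e ∈ blk (src e) 1 := by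
    unfold blk
    apply H973.mem_RE_of_ends
    · exact src_in e _ (by norm_num)
    · exact tgt_in e _ (by norm_num)
  set M : Set Edg := F \ {e} with hM
  obtain ⟨X1, x1, x2, x3⟩ := first_exit (src_in e k (by positivity)) h1
    (by unfold Far at hX; omega)
  obtain ⟨Y1, y1, y2, y3⟩ := first_exit (tgt_in e k (by exact_mod_cast hk)) h2
    (by unfold Far at hY; omega)
  have hsub : M ∩ ↑(RE ((src e).1 - k) ((src e).1 + k) ((src e).2 - k) ((src e).2 + k)) ⊆ F :=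
    fun g hg => hg.1.1
  have hblk : ∀ g ∈ M ∩ ↑(RE ((src e).1 - k) ((src e).1 + k) ((src e).2 - k) ((src e).2 + k)),
      g ∈ blk (src e) k := fun g hg => Finset.mem_coe.1 hg.2
  obtain ⟨u, u1, u2, u3⟩ := last_exit (d := 1) hsub hblk hk (by omega) x3.symm
    (src_in e _ (by norm_num))
  obtain ⟨u', u1', u2', u3'⟩ := last_exit (d := 1) hsub hblk hk (by omega) y3.symm
    (tgt_in e _ (by norm_num))
  have hback : F ∩ ↑(blk (src e) k \ blk (src e) 1) ⊆ M := by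
    rintro g ⟨hg1, hg2⟩
    obtain ⟨hg3, hg4⟩ := mem_sdiff.1 (mem_coe.1 hg2)
    refine ⟨hg1, ?_⟩
    rintro rfl
    exact hg4 heb
  refine ⟨u, bdB_iff.2 ⟨u1, u2⟩, u', bdB_iff.2 ⟨u1', u2'⟩, ⟨X1, bdB_iff.2 ⟨x1, x2⟩, u3⟩,
    ⟨Y1, bdB_iff.2 ⟨y1, y2⟩, u3'⟩, fun hr => h3 ?_⟩
  have e1 : Reach M (src e) X1 := x3.mono Set.inter_subset_left
  have e2 : Reach M (tgt e) Y1 := y3.mono Set.inter_subset_left
  exact e1.trans ((u3.mono hback).symm.trans ((hr.mono hback).trans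
    ((u3'.mono hback).trans e2.symm)))

/-- Last exit from a block. -/
theorem last_out {c : Vtx} {m : ℕ} {F : Set Edg} {x a : Vtx} (h : Reach F x a)
    (hx : inR (c.1 - m) (c.1 + m) (c.2 - m) (c.2 + m) x) :
    ∃ u, inR (c.1 - m) (c.1 + m) (c.2 - m) (c.2 + m) u ∧ Reach (F \ ↑(blk c m)) u a := by
  have key : (∃ u, inR (c.1 - m) (c.1 + m) (c.2 - m) (c.2 + m) u ∧
      Reach (F \ ↑(blk c m)) u a) ∨ Reach (F \ ↑(blk c m)) x a := by
    clear hx
    induction h using Relation.ReflTransGen.head_induction_on with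
    | refl => exact Or.inr (Reach.refl _ _)
    | @head x y hs _ ih =>
      rcases ih with ih | ih
      · exact Or.inl ih
      · obtain ⟨g, hg, hcase⟩ := hs
        by_cases hgb : g ∈ blk c m
        · left
          have hh := H973.mem_RE_ends hgb
          rcases hcase with ⟨h1, h2⟩ | ⟨h1, h2⟩
          · exact ⟨y, by rw [← h2]; exact hh.2, ih⟩
          · exact ⟨y, by rw [← h1]; exact hh.1, ih⟩
        · right
          have h1 : Adj (F \ ↑(blk c m)) x y := ⟨g, ⟨hg, fun h => hgb (Finset.mem_coe.1 h)⟩, hcase⟩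
          exact h1.reach.trans ih
  rcases key with h1 | h1
  · exact h1
  · exact ⟨x, hx, h1⟩

/-- An arm outside the block of radius `m` around `c`, from the box of radius `ρ` around `x` to
distance `k` from `x`. -/
def ArmO (c : Vtx) (m : ℕ) (x : Vtx) (ρ : ℕ) (k : ℤ) (F : Set Edg) : Prop :=
  ∃ u v : Vtx, inR (x.1 - ρ) (x.1 + ρ) (x.2 - ρ) (x.2 + ρ) u ∧ Far x k v ∧
    Reach (F \ ↑(blk c m)) u v

theorem cut_arm {r : ℤ} {e : Edg} {F : Set Edg} (h : Cut r e F) {m ρ : ℕ} {k : ℤ} {x : Vtx}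
    (hx : inR ((src e).1 - m) ((src e).1 + m) ((src e).2 - m) ((src e).2 + m) x)
    (hρ : 2 * m ≤ ρ) (hk : k ≤ r - m) : ArmO (src e) m x ρ k F := by
  obtain ⟨-, -, ⟨a, h3, h4⟩, -⟩ := h
  obtain ⟨u, h5, h6⟩ := last_out (c := src e) (m := m) (h4.mono Set.sdiff_subset)
    (src_in e m (by positivity))
  refine ⟨u, a, ?_, ?_, h6⟩
  · unfold inR at h5 hx ⊢; omega
  · unfold Far at h3 ⊢; unfold inR at hx; omega

end Pool.Agent.W5h49.Pin
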