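import Pool.Agent.H342R2.Per.Outer

/-!
An edge of a cluster both sides of which are in the unbounded face is a bridge.
-/

set_option autoImplicit false

namespace Pool.Agent.W5h49.Pin

open H974 H342P Finset

/-- Boundary of a chain of edges at a vertex. -/
def vb (Z : Edg → ZMod 2) (x y : ℤ) : ZMod 2 :=
  Z (x, y, true) + Z (x - 1, y, true) + Z (x, y, false) + Z (x, y - 1, false)

theorem vb_single (e : Edg) (x y : ℤ) :
    vb (fun e' => b2 (e' = e)) x y = b2 (src e = (x, y)) + b2 (tgt e = (x, y)) := by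
  obtain ⟨x0, y0, b⟩ := e
  cases b
  · have h1 : ((x, y, true) : Edg) ≠ (x0, y0, false) := by simp
    have h2 : ((x - 1, y, true) : Edg) ≠ (x0, y0, false) := by simp
    simp only [vb, b2_not_of h1, b2_not_of h2, zero_add, tgt_false, src_mk]
    have e1 : (((x, y, false) : Edg) = (x0, y0, false)) ↔ ((x0, y0) : Vtx) = (x, y) := by
      simp only [Prod.mk.injEq]; tauto
    have e2 : (((x, y - 1, false) : Edg) = (x0, y0, false)) ↔ ((x0, y0 + 1) : Vtx) = (x, y) := by
      simp only [Prod.mk.injEq, and_true]; constructor <;> rintro ⟨h1, h2⟩ <;> constructor <;> omega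
    rw [b2_congr e1, b2_congr e2]
  · have h1 : ((x, y, false) : Edg) ≠ (x0, y0, true) := by simp
    have h2 : ((x, y - 1, false) : Edg) ≠ (x0, y0, true) := by simp
    simp only [vb, b2_not_of h1, b2_not_of h2, add_zero, tgt_true, src_mk]
    have e1 : (((x, y, true) : Edg) = (x0, y0, true)) ↔ ((x0, y0) : Vtx) = (x, y) := by
      simp only [Prod.mk.injEq]; tauto
    have e2 : (((x - 1, y, true) : Edg) = (x0, y0, true)) ↔ ((x0 + 1, y0) : Vtx) = (x, y) := by
      simp only [Prod.mk.injEq, and_true]; constructor <;> rintro ⟨h1, h2⟩ <;> constructor <;> omega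
    rw [b2_congr e1, b2_congr e2]

theorem chain_of_reach {G : Set Edg} {f g : Vtx} (h : Reach G f g) :
    ∃ Z : Edg → ZMod 2, (∀ e, Z e ≠ 0 → e ∈ G) ∧
      ∀ x y, vb Z x y = b2 (f = (x, y)) + b2 (g = (x, y)) := by
  induction h with
  | refl =>
    refine ⟨fun _ => 0, fun e h => absurd rfl h, ?_⟩
    intro x y
    rw [zmod2_add_self]
    simp [vb]
  | @tail g' g'' _ hstep ih =>
    obtain ⟨Z, hZ1, hZ2⟩ := ih
    obtain ⟨e, he, hcase⟩ := hstep
    refine ⟨fun e' => Z e' + b2 (e' = e), ?_, ?_⟩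
    · intro e' h
      by_cases hee : e' = e
      · rw [hee]; exact he
      · have h' : Z e' + b2 (e' = e) ≠ 0 := h
        rw [b2_not_of hee, add_zero] at h'
        exact hZ1 e' h'
    · intro x y
      have h1 : vb (fun e' => Z e' + b2 (e' = e)) x y
          = vb Z x y + vb (fun e' => b2 (e' = e)) x y := by
        simp only [vb]; ring
      rw [h1, hZ2, vb_single]
      have h2 : b2 (src e = (x, y)) + b2 (tgt e = (x, y))
          = b2 (g' = (x, y)) + b2 (g'' = (x, y)) := by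
        rcases hcase with ⟨h3, h4⟩ | ⟨h3, h4⟩
        · rw [h3, h4]
        · rw [h3, h4, add_comm]
      rw [h2]
      have := zmod2_add_self (b2 (g' = (x, y)))
      linear_combination this

section
variable {Z : Edg → ZMod 2} {a : ℤ}

/-- The potential of `Z`. -/
noncomputable def Sp (Z : Edg → ZMod 2) (a x y : ℤ) : ZMod 2 :=
  ∑ i ∈ Finset.Ico a (x + 1), Z (i, y, false)

theorem Sp_V (hZ : ∀ e, Z e ≠ 0 → a ≤ e.1) (x y : ℤ) :
    Sp Z a x y = Sp Z a (x - 1) y + Z (x, y, false) := by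
  unfold Sp
  by_cases hx : a ≤ x
  · have h := sum_Ico_int_succ hx (fun i => Z (i, y, false))
    rw [h]
    simp
  · rw [Finset.Ico_eq_empty (by omega), Finset.Ico_eq_empty (by omega)]
    have : Z (x, y, false) = 0 := by
      by_contra hc
      exact hx (hZ _ hc)
    rw [this]
    simp

theorem Sp_H (hZ : ∀ e, Z e ≠ 0 → a ≤ e.1) (hv : ∀ x y, vb Z x y = 0) (x y : ℤ) :
    Sp Z a x y = Sp Z a x (y - 1) + Z (x, y, true) := by
  by_cases hx : a ≤ x
  · have key : ∀ k : ℕ, Sp Z a (a - 1 + k) y + Sp Z a (a - 1 + k) (y - 1)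
        = Z (a - 1 + k, y, true) := by
      intro k
      induction k with
      | zero =>
        have : Z (a - 1 + ((0:ℕ):ℤ), y, true) = 0 := by
          by_contra hc
          have := hZ _ hc
          simp only at this
          omega
        rw [this]
        unfold Sp
        rw [Finset.Ico_eq_empty (by push_cast; omega)]
        simp
      | succ k ih =>
        have e1 : a - 1 + ((k + 1 : ℕ) : ℤ) = a + k := by push_cast; ring
        have e2 : a + (k:ℤ) - 1 = a - 1 + k := by ring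
        rw [e1, Sp_V hZ (a + k) y, Sp_V hZ (a + k) (y - 1), e2]
        have h3 := hv (a + k) y
        unfold vb at h3
        rw [e2] at h3
        have h4 : ∀ p q r s t u : ZMod 2, p + q = r → t + r + s + u = 0 →
            p + s + (q + u) = t := by decide
        exact h4 _ _ _ _ _ _ ih h3
    obtain ⟨k, hk⟩ : ∃ k : ℕ, x = a - 1 + k := ⟨(x - (a - 1)).toNat, by omega⟩
    have := key k
    rw [← hk] at this
    rw [← this]
    have h4 : ∀ p q : ZMod 2, p = q + (p + q) := by decide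
    exact h4 _ _
  · unfold Sp
    have : Z (x, y, true) = 0 := by
      by_contra hc
      exact hx (hZ _ hc)
    rw [Finset.Ico_eq_empty (by omega), this]
    simp

theorem Sp_step (hZ : ∀ e, Z e ≠ 0 → a ≤ e.1) (hv : ∀ x y, vb Z x y = 0) (e : Edg) :
    Sp Z a (dtgt e).1 (dtgt e).2 = Sp Z a (dsrc e).1 (dsrc e).2 + Z e := by
  obtain ⟨x, y, t⟩ := e
  cases t
  · simp only [dtgt_mk, dsrc_false]
    exact Sp_V hZ x y
  · simp only [dtgt_mk, dsrc_true]
    exact Sp_H hZ hv x y

theorem Sp_reach (hZ : ∀ e, Z e ≠ 0 → a ≤ e.1) (hv : ∀ x y, vb Z x y = 0) {G : Set Edg}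
    (hG : ∀ e ∈ G, Z e = 0) {f g : Vtx} (h : DReach G f g) :
    Sp Z a g.1 g.2 = Sp Z a f.1 f.2 := by
  induction h with
  | refl => rfl
  | tail _ hs ih =>
    obtain ⟨e, he, h⟩ := hs
    have h1 := Sp_step hZ hv e
    rw [hG e he, add_zero] at h1
    rcases h with ⟨h2, h3⟩ | ⟨h2, h3⟩
    · rw [h2, h3] at h1
      rw [h1, ih]
    · rw [h2, h3] at h1
      rw [← h1, ih]

end

theorem reach_EC {F : Set Edg} {v : Vtx} {e : Edg} {u w : Vtx} (hu : Reach F v u)
    (h : Reach (F \ {e}) u w) : Reach (EC F v \ {e}) u w := by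
  have key : ∀ w, Reach (F \ {e}) u w → Reach (EC F v \ {e}) u w ∧ Reach F v w := by
    intro w hw
    induction hw with
    | refl => exact ⟨Reach.refl _ _, hu⟩
    | @tail w' w'' _ hs ih =>
      obtain ⟨g, hg, hcase⟩ := hs
      have h1 : Reach F v (src g) := by
        rcases hcase with ⟨h2, h3⟩ | ⟨h2, h3⟩
        · rw [h2]; exact ih.2
        · exact ih.2.trans (Adj.reach ⟨g, hg.1, Or.inr ⟨rfl, h3⟩⟩)
      refine ⟨ih.1.trans (Adj.reach ⟨g, ⟨⟨hg.1, h1⟩, hg.2⟩, hcase⟩), ?_⟩
      exact ih.2.trans (Adj.reach ⟨g, hg.1, hcase⟩)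
  exact (key w h).1

/-- An edge of the cluster of `v` both sides of which are in the unbounded face is a bridge. -/
theorem bridge_of_outer {F : Set Edg} {v : Vtx} {a : ℤ} (hF : ∀ e ∈ F, a ≤ e.1) {e : Edg}
    (he : e ∈ F) (hv : Reach F v (src e)) {o : Vtx} (h1 : DReach (EC F v)ᶜ (dsrc e) o)
    (h2 : DReach (EC F v)ᶜ (dtgt e) o) : ¬ Reach (F \ {e}) (src e) (tgt e) := by
  intro h
  obtain ⟨Z, hZ1, hZ2⟩ := chain_of_reach (reach_EC hv h)
  have hZe : Z e = 0 := by
    by_contra hc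
    exact (hZ1 e hc).2 rfl
  have hY1 : ∀ g, (fun e' => Z e' + b2 (e' = e)) g ≠ 0 → g ∈ EC F v := by
    intro g hg
    by_cases hge : g = e
    · rw [hge]; exact ⟨he, hv⟩
    · have h' : Z g + b2 (g = e) ≠ 0 := hg
      rw [b2_not_of hge, add_zero] at h'
      exact (hZ1 g h').1
  have hY2 : ∀ g, (fun e' => Z e' + b2 (e' = e)) g ≠ 0 → a ≤ g.1 :=
    fun g hg => hF g (hY1 g hg).1
  have hY3 : ∀ x y, vb (fun e' => Z e' + b2 (e' = e)) x y = 0 := by
    intro x y
    have h1 : vb (fun e' => Z e' + b2 (e' = e)) x y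
        = vb Z x y + vb (fun e' => b2 (e' = e)) x y := by
      simp only [vb]; ring
    rw [h1, hZ2, vb_single]
    exact zmod2_add_self _
  have hY4 : ∀ g ∈ (EC F v)ᶜ, (fun e' => Z e' + b2 (e' = e)) g = 0 := by
    intro g hg
    by_contra hc
    exact hg (hY1 g hc)
  have h3 := Sp_reach hY2 hY3 hY4 (h1.trans h2.symm)
  rw [Sp_step hY2 hY3 e] at h3
  have h4 : (fun e' => Z e' + b2 (e' = e)) e = 0 := add_eq_left.mp h3
  change Z e + b2 (e = e) = 0 at h4
  rw [hZe, b2_of rfl, zero_add] at h4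
  exact one_ne_zero h4

end Pool.Agent.W5h49.Pin
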