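import Pool.Agent.W5h49.Pin.Prob
import Pool.Agent.W5h49.Pin.Dual
import Pool.Agent.H342R2.Per.Plain

/-!
The number of macroscopic cut edges: final steps.
-/

set_option autoImplicit false

namespace Pool.Agent.W5h49.Pin

open H974 H12S Finset H389NS H342P Filter Topology
open Pool.Agent.W92.DP Pool.Agent.W822.PD

open Classical in
/-- The cut edges of size `r`: the open edges whose removal splits their cluster into two parts,
both of which contain a vertex at Euclidean distance at least `r` from the edge. -/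
noncomputable def cutEdges (F : Finset Plain.Edge) (r : ℝ) : Finset Plain.Edge :=
  F.filter (fun e => Plain.snd e ∉ Plain.cluster (F.erase e) (Plain.fst e) ∧
    (∃ a ∈ Plain.cluster (F.erase e) (Plain.fst e), r ^ 2 ≤ (Plain.sqDist (Plain.fst e) a : ℝ)) ∧
    ∃ b ∈ Plain.cluster (F.erase e) (Plain.snd e), r ^ 2 ≤ (Plain.sqDist (Plain.fst e) b : ℝ))

open Classical in
/-- Those of the cluster of `v` both sides of which are in the unbounded face. -/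
noncomputable def pinchEdges (F : Finset Plain.Edge) (v : ℤ × ℤ) (r : ℝ) : Finset Plain.Edge :=
  (cutEdges F r).filter (fun e => e ∈ Plain.clusterEdges F v ∧ Plain.Outer F v (Plain.side₁ e) ∧
    Plain.Outer F v (Plain.side₂ e))

theorem far_of_sq {u a : Vtx} {r : ℝ} (hr : 0 ≤ r) (h : r ^ 2 ≤ (Plain.sqDist u a : ℝ)) :
    Far u (⌈r / 2⌉₊ : ℤ) a := by
  by_contra hc
  unfold Far at hc
  push Not at hc
  obtain ⟨h1, h2, h3, h4⟩ := hc
  have hs : (⌈r / 2⌉₊ : ℝ) < r / 2 + 1 := Nat.ceil_lt_add_one (by positivity)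
  have hs1 : 1 ≤ (⌈r / 2⌉₊ : ℤ) := by omega
  have k1 : |u.1 - a.1| ≤ (⌈r / 2⌉₊ : ℤ) - 1 := by rw [abs_le]; omega
  have k2 : |u.2 - a.2| ≤ (⌈r / 2⌉₊ : ℤ) - 1 := by rw [abs_le]; omega
  have k3 : (u.1 - a.1) ^ 2 ≤ ((⌈r / 2⌉₊ : ℤ) - 1) ^ 2 := by
    rw [← sq_abs (u.1 - a.1)]
    exact pow_le_pow_left₀ (abs_nonneg _) k1 2
  have k4 : (u.2 - a.2) ^ 2 ≤ ((⌈r / 2⌉₊ : ℤ) - 1) ^ 2 := by
    rw [← sq_abs (u.2 - a.2)]
    exact pow_le_pow_left₀ (abs_nonneg _) k2 2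
  have k5 : Plain.sqDist u a ≤ 2 * ((⌈r / 2⌉₊ : ℤ) - 1) ^ 2 := by
    unfold Plain.sqDist; linarith
  have k6 : ((Plain.sqDist u a : ℤ) : ℝ) ≤ 2 * ((⌈r / 2⌉₊ : ℝ) - 1) ^ 2 := by exact_mod_cast k5
  have k7 : (0:ℝ) ≤ (⌈r / 2⌉₊ : ℝ) - 1 := by
    have : (1:ℝ) ≤ ((⌈r / 2⌉₊ : ℤ) : ℝ) := by exact_mod_cast hs1
    simpa using this
  nlinarith

theorem sq_of_far {u a : Vtx} {d : ℤ} {r : ℝ} (hr : 0 ≤ r) (hd : r ≤ d) (h : Far u d a) :
    r ^ 2 ≤ (Plain.sqDist u a : ℝ) := by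
  unfold Far at h
  have key : d ≤ |u.1 - a.1| ∨ d ≤ |u.2 - a.2| := by
    rcases h with h | h | h | h
    · left; exact (by omega : d ≤ u.1 - a.1).trans (le_abs_self _)
    · left; rw [abs_sub_comm]; exact (by omega : d ≤ a.1 - u.1).trans (le_abs_self _)
    · right; exact (by omega : d ≤ u.2 - a.2).trans (le_abs_self _)
    · right; rw [abs_sub_comm]; exact (by omega : d ≤ a.2 - u.2).trans (le_abs_self _)
  have e1 : ((Plain.sqDist u a : ℤ) : ℝ) = ((u.1 - a.1 : ℤ) : ℝ) ^ 2 + ((u.2 - a.2 : ℤ) : ℝ) ^ 2 := by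
    unfold Plain.sqDist; push_cast; ring
  rw [e1]
  rcases key with h1 | h1
  · have h2 : r ≤ |((u.1 - a.1 : ℤ) : ℝ)| := hd.trans (by exact_mod_cast h1)
    have h3 := pow_le_pow_left₀ hr h2 2
    rw [sq_abs] at h3
    nlinarith [sq_nonneg ((u.2 - a.2 : ℤ) : ℝ)]
  · have h2 : r ≤ |((u.2 - a.2 : ℤ) : ℝ)| := hd.trans (by exact_mod_cast h1)
    have h3 := pow_le_pow_left₀ hr h2 2
    rw [sq_abs] at h3
    nlinarith [sq_nonneg ((u.1 - a.1 : ℤ) : ℝ)]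

theorem cut_of_mem {F : Finset Plain.Edge} {r : ℝ} (hr : 0 ≤ r) {e : Plain.Edge}
    (h : e ∈ cutEdges F r) : Cut (⌈r / 2⌉₊ : ℤ) e (↑F : Set Edg) := by
  classical
  unfold cutEdges at h
  rw [Finset.mem_filter] at h
  obtain ⟨h1, h2, ⟨a, ha, ha'⟩, b, hb, hb'⟩ := h
  rw [Plain.mem_cluster, Finset.coe_erase] at h2 ha hb
  rw [Plain.fst_eq, Plain.snd_eq] at h2
  rw [Plain.fst_eq] at ha ha' hb'
  rw [Plain.snd_eq] at hb
  exact ⟨h1, h2, ⟨a, far_of_sq hr ha', ha⟩, b, far_of_sq hr hb', hb⟩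

theorem cutEdges_anti {F : Finset Plain.Edge} {r s : ℝ} (hs : 0 ≤ s) (h : s ≤ r) :
    cutEdges F r ⊆ cutEdges F s := by
  classical
  intro e he
  unfold cutEdges at he ⊢
  rw [Finset.mem_filter] at he ⊢
  obtain ⟨h1, h2, ⟨a, ha, ha'⟩, b, hb, hb'⟩ := he
  have h3 : s ^ 2 ≤ r ^ 2 := pow_le_pow_left₀ hs h 2
  exact ⟨h1, h2, ⟨a, ha, h3.trans ha'⟩, b, hb, h3.trans hb'⟩

theorem pinchEdges_anti {F : Finset Plain.Edge} {v : ℤ × ℤ} {r s : ℝ} (hs : 0 ≤ s) (h : s ≤ r) :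
    pinchEdges F v r ⊆ pinchEdges F v s := by
  classical
  unfold pinchEdges
  exact Finset.filter_subset_filter _ (cutEdges_anti hs h)

theorem card_cut_le {n : ℕ} {F : Finset Plain.Edge} (hF : F ⊆ RE 0 n 0 n) {r : ℝ} (hr : 0 ≤ r) :
    ((cutEdges F r).card : ℝ) ≤ ∑ e ∈ RE 0 n 0 n, ind (Cut (⌈r / 2⌉₊ : ℤ) e (↑F : Set Edg)) := by
  classical
  have h1 : ((cutEdges F r).card : ℝ) =
      ∑ e ∈ cutEdges F r, ind (Cut (⌈r / 2⌉₊ : ℤ) e (↑F : Set Edg)) := by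
    rw [Finset.sum_congr rfl (fun e he => ind_of (cut_of_mem hr he))]
    simp
  rw [h1]
  apply Finset.sum_le_sum_of_subset_of_nonneg
  · exact (Finset.filter_subset _ _).trans hF
  · intro e _ _
    exact ind_nonneg _

/-- The expected number of the cut edges. -/
theorem ex_cut_le {C : ℝ} (hB : Bds C) {n : ℕ} {r : ℝ} (hr : 1 ≤ r) (hrn : r ≤ n) :
    Ex (fun _ => (1/2:ℝ)) (RE 0 n 0 n) (fun F => ((cutEdges F r).card : ℝ)) ≤
      3 * (72 * C + 192 * (9 * C * C + C)) * ((n:ℝ) ^ 2 * r ^ (-(5/4) : ℝ)) := by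
  have hC := hB.pos
  have h1 : Ex (fun _ => (1/2:ℝ)) (RE 0 n 0 n) (fun F => ((cutEdges F r).card : ℝ)) ≤
      Ex (fun _ => (1/2:ℝ)) (RE 0 n 0 n) (fun F => ∑ e ∈ RE 0 n 0 n,
        ind (Cut (⌈r / 2⌉₊ : ℤ) e (↑F : Set Edg))) :=
    Ex_mono okh (fun F hF => card_cut_le hF (by linarith))
  rw [Ex_sum] at h1
  have hs1 : 1 ≤ ⌈r / 2⌉₊ := Nat.one_le_iff_ne_zero.mpr (by
    intro h
    rw [Nat.ceil_eq_zero] at h
    linarith)
  have hsn : ⌈r / 2⌉₊ ≤ n := by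
    rw [Nat.ceil_le]; linarith
  have h2 := sum_cut_le hB hs1 hsn
  have h3 : ((⌈r / 2⌉₊ : ℕ) : ℝ) ^ (-(5/4) : ℝ) ≤ 3 * r ^ (-(5/4) : ℝ) := by
    have e1 : r / 2 ≤ (⌈r / 2⌉₊ : ℝ) := Nat.le_ceil _
    have e2 : ((⌈r / 2⌉₊ : ℕ) : ℝ) ^ (-(5/4) : ℝ) ≤ (r / 2) ^ (-(5/4) : ℝ) :=
      Real.rpow_le_rpow_of_nonpos (by linarith) e1 (by norm_num)
    refine e2.trans ?_
    rw [Real.div_rpow (by linarith) (by norm_num), Real.rpow_neg (by norm_num : (0:ℝ) ≤ 2),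
      div_inv_eq_mul, mul_comm]
    have e3 : (2:ℝ) ^ (5/4:ℝ) ≤ 3 := by
      have e4 : ((2:ℝ) ^ (5/4:ℝ)) ^ (4:ℕ) ≤ 3 ^ (4:ℕ) := by
        rw [← Real.rpow_natCast, ← Real.rpow_mul (by norm_num)]
        norm_num
      exact le_of_pow_le_pow_left₀ (by norm_num) (by norm_num) e4
    exact mul_le_mul_of_nonneg_right e3 (by positivity)
  refine h1.trans (h2.trans ?_)
  calc _ ≤ (72 * C + 192 * (9 * C * C + C)) * ((n:ℝ) ^ 2 * (3 * r ^ (-(5/4) : ℝ))) := by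
        gcongr
    _ = _ := by ring

/-- A pinch is a pinch edge. -/
theorem mem_pinch {n : ℕ} {F : Finset Plain.Edge} (hF : F ⊆ RE 0 n 0 n) {v w : ℤ × ℤ} {d : ℤ}
    {r : ℝ} (hr : 0 ≤ r) (hrd : r ≤ d - 1) (h : PinO d v (↑F : Set Edg) w) :
    ∃ e ∈ pinchEdges F v r, src e = w ∨ tgt e = w := by
  classical
  obtain ⟨e, v2, u1, u2, he, hcase, hvw, ⟨h1, h2⟩, ⟨h3, h4⟩, h5, h6⟩ := h
  have hsrc : Reach (↑F : Set Edg) v (src e) := by
    rcases hcase with ⟨h7, h8⟩ | ⟨h7, h8⟩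
    · rw [h7]; exact hvw
    · rw [← h8] at hvw
      exact hvw.trans (Adj.reach ⟨e, he, Or.inr ⟨rfl, rfl⟩⟩)
  have hbr : ¬ Reach ((↑F : Set Edg) \ {e}) (src e) (tgt e) := by
    refine bridge_of_outer (a := 0) ?_ he hsrc h5 h6
    intro g hg
    have := (H973.mem_RE_ends (hF hg)).1
    unfold inR at this
    exact this.1.1
  have harms : (∃ a, Far (src e) (d - 1) a ∧ Reach ((↑F : Set Edg) \ {e}) (src e) a) ∧
      ∃ b, Far (src e) (d - 1) b ∧ Reach ((↑F : Set Edg) \ {e}) (tgt e) b := by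
    rcases hcase with ⟨h7, h8⟩ | ⟨h7, h8⟩
    · rw [h7, h8]
      refine ⟨⟨u1, ?_, h1⟩, u2, ?_, h2⟩
      · unfold Far at h3 ⊢; omega
      · unfold Far at h4 ⊢; omega
    · have h9 : Far (src e) (d - 1) u1 ∧ Far (src e) (d - 1) u2 := by
        rw [← h8] at h3 h4
        obtain ⟨x, y, t⟩ := e
        unfold Far at h3 h4 ⊢
        cases t
        · simp only [src_mk, tgt_false] at h3 h4 ⊢; omega
        · simp only [src_mk, tgt_true] at h3 h4 ⊢; omega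
      exact ⟨⟨u2, h9.2, by rw [h7]; exact h2⟩, u1, h9.1, by rw [h8]; exact h1⟩
  refine ⟨e, ?_, ?_⟩
  · unfold pinchEdges cutEdges
    rw [Finset.mem_filter, Finset.mem_filter]
    obtain ⟨⟨a, ha1, ha2⟩, b, hb1, hb2⟩ := harms
    refine ⟨⟨he, ?_, ⟨a, ?_, ?_⟩, b, ?_, ?_⟩, ?_, ?_, ?_⟩
    · rw [Plain.mem_cluster, Finset.coe_erase, Plain.fst_eq, Plain.snd_eq]
      exact hbr
    · rw [Plain.mem_cluster, Finset.coe_erase, Plain.fst_eq]
      exact ha2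
    · rw [Plain.fst_eq]
      exact sq_of_far hr (by push_cast; exact hrd) ha1
    · rw [Plain.mem_cluster, Finset.coe_erase, Plain.snd_eq]
      exact hb2
    · rw [Plain.fst_eq]
      exact sq_of_far hr (by push_cast; exact hrd) hb1
    · rw [Plain.clusterEdges_eq]
      exact ⟨he, hsrc⟩
    · rw [Plain.outer_iff, Plain.side₁_eq]
      exact h5
    · rw [Plain.outer_iff, Plain.side₂_eq]
      exact h6
  · rcases hcase with ⟨h7, h8⟩ | ⟨h7, h8⟩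
    · exact Or.inl h7
    · exact Or.inr h8

theorem card_pinch {n : ℕ} {F : Finset Plain.Edge} (hF : F ⊆ RE 0 n 0 n) {v : ℤ × ℤ} {d : ℤ}
    {r t c E : ℝ} (hr : 0 ≤ r) (hrd : r ≤ d - 1) (h : RPinO t c E n d v (↑F : Set Edg)) :
    c / 2 * (n:ℝ) ^ (3/4 : ℝ) ≤ ((pinchEdges F v r).card : ℝ) := by
  classical
  obtain ⟨V, h1, -, h2⟩ := h
  have h3 : V ⊆ (pinchEdges F v r).image src ∪ (pinchEdges F v r).image tgt := by
    intro w hw
    obtain ⟨e, he, hc⟩ := mem_pinch hF hr hrd (h2 w hw)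
    rw [Finset.mem_union, Finset.mem_image, Finset.mem_image]
    rcases hc with hc | hc
    · exact Or.inl ⟨e, he, hc⟩
    · exact Or.inr ⟨e, he, hc⟩
  have h4 : V.card ≤ (pinchEdges F v r).card + (pinchEdges F v r).card :=
    (Finset.card_le_card h3).trans ((Finset.card_union_le _ _).trans
      (Nat.add_le_add Finset.card_image_le Finset.card_image_le))
  have h5 : (V.card : ℝ) ≤ (pinchEdges F v r).card + (pinchEdges F v r).card := by
    exact_mod_cast h4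
  linarith

theorem mean_eq (n : ℕ) (X : Finset Plain.Edge → ℝ) :
    (∑ F ∈ (Plain.edges n).powerset, X F) / 2 ^ (Plain.edges n).card =
      Ex (fun _ => (1/2:ℝ)) (RE 0 n 0 n) X := by
  unfold Ex
  rw [Plain.edges_eq]
  set S := RE (0:ℤ) n 0 n
  have h1 : ∀ F ∈ S.powerset, (∏ _e ∈ F, (1/2:ℝ)) * (∏ _e ∈ S \ F, (1 - (1/2:ℝ))) * X F =
      (1/2:ℝ) ^ S.card * X F := by
    intro F hF
    rw [Finset.mem_powerset] at hF
    rw [Finset.prod_const, Finset.prod_const]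
    have h2 : (1:ℝ) - 1/2 = 1/2 := by norm_num
    rw [h2, ← pow_add, Finset.card_sdiff_of_subset hF]
    have h3 := Finset.card_le_card hF
    congr 2
    omega
  rw [Finset.sum_congr rfl h1, ← Finset.mul_sum, one_div, inv_pow]
  field_simp

theorem main (hAa : St_Aa) (hHB : PD_HB) (hPAR : PD_PAR) :
    (∃ C : ℝ, 0 < C ∧ ∀ (n : ℕ) (r : ℝ), 1 ≤ r → r ≤ n →
      (∑ F ∈ (Plain.edges n).powerset, ((cutEdges F r).card : ℝ)) / 2 ^ (Plain.edges n).card ≤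
        C * ((n:ℝ) ^ 2 * r ^ (-(5/4) : ℝ))) ∧
    (∀ δ : ℝ, 0 < δ → ∃ η₀ c : ℝ, 0 < η₀ ∧ 0 < c ∧ ∀ η : ℝ, 0 < η → η ≤ η₀ →
      ∃ K : ℝ, c < K ∧ ∀ᶠ n : ℕ in atTop, 1 - δ ≤ Plain.prob n (fun F => ∀ v, Plain.Largest n F v →
        c * (n:ℝ) ^ (3/4 : ℝ) ≤ ((pinchEdges F v (η * n)).card : ℝ) ∧
          ((cutEdges F (η * n)).card : ℝ) ≤ K * (n:ℝ) ^ (3/4 : ℝ))) := by
  obtain ⟨C0, hB⟩ := bds_of hAa hHB
  have hC0 := hB.pos
  set C : ℝ := 3 * (72 * C0 + 192 * (9 * C0 * C0 + C0)) with hC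
  have hCpos : 0 < C := by positivity
  refine ⟨⟨C, hCpos, fun n r hr hrn => ?_⟩, fun δ hδ => ?_⟩
  · rw [mean_eq]
    exact ex_cut_le hB hr hrn
  · obtain ⟨ρ, c, E, hρ, hc, hE, n0, h⟩ := hPAR (1/2) (by norm_num) (by norm_num) (δ / 2)
      (by linarith)
    refine ⟨min (ρ / 2) 1, c / 2, by positivity, by positivity, fun η hη hη0 => ?_⟩
    have hη1 : η ≤ 1 := hη0.trans (min_le_right _ _)
    have hη2 : η ≤ ρ / 2 := hη0.trans (min_le_left _ _)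
    set K : ℝ := c / 2 + 1 + 2 * (C * η ^ (-(5/4) : ℝ)) / δ with hK
    have hK1 : 0 < C * η ^ (-(5/4) : ℝ) := by positivity
    refine ⟨K, ?_, ?_⟩
    · have : 0 < 2 * (C * η ^ (-(5/4) : ℝ)) / δ := by positivity
      linarith
    · obtain ⟨n1, hn1⟩ := exists_nat_ge (2 / ρ)
      obtain ⟨n2, hn2⟩ := exists_nat_ge (1 / η)
      filter_upwards [eventually_ge_atTop n0, eventually_ge_atTop n1, eventually_ge_atTop n2,
        eventually_ge_atTop 1] with n g0 g1 g2 g3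
      have hn1' : 2 / ρ ≤ n := hn1.trans (by exact_mod_cast g1)
      have hn2' : 1 / η ≤ n := hn2.trans (by exact_mod_cast g2)
      have hnpos : (0:ℝ) < n := by exact_mod_cast g3
      have hρn : 2 ≤ ρ * n := by rwa [div_le_iff₀' hρ] at hn1'
      have hηn : 1 ≤ η * n := by rwa [div_le_iff₀' hη] at hn2'
      have hηn2 : η * n ≤ n := by nlinarith
      have hηρ : η * n ≤ ρ * n - 1 := by nlinarith
      have h1 := h n g0
      have h2 := ex_cut_le hB hηn hηn2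
      have h3 := markov (S := RE 0 n 0 n) (X := fun F => ((cutEdges F (η * n)).card : ℝ))
        (fun F => Nat.cast_nonneg _) (t := K * (n:ℝ) ^ (3/4 : ℝ)) (by positivity)
      have h4 : Ex (fun _ => (1/2:ℝ)) (RE 0 n 0 n) (fun F => ((cutEdges F (η * n)).card : ℝ)) /
          (K * (n:ℝ) ^ (3/4 : ℝ)) ≤ δ / 2 := by
        rw [div_le_iff₀ (by positivity)]
        refine h2.trans ?_
        have e1 : (n:ℝ) ^ 2 * (η * n) ^ (-(5/4) : ℝ) =
            η ^ (-(5/4) : ℝ) * (n:ℝ) ^ (3/4 : ℝ) := by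
          rw [Real.mul_rpow hη.le hnpos.le, ← Real.rpow_natCast (n:ℝ) 2]
          rw [mul_left_comm, ← Real.rpow_add hnpos]
          norm_num
        rw [e1]
        have e2 : C * η ^ (-(5/4) : ℝ) ≤ δ / 2 * K := by
          have : δ / 2 * (2 * (C * η ^ (-(5/4) : ℝ)) / δ) = C * η ^ (-(5/4) : ℝ) := by
            field_simp
          rw [hK, mul_add, this]
          have : 0 ≤ δ / 2 * (c / 2 + 1) := by positivity
          linarith
        have e3 := mul_le_mul_of_nonneg_right e2 (show 0 ≤ (n:ℝ) ^ (3/4 : ℝ) by positivity)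
        linarith
      have h5 := Plain.prob_not n (fun F => ∀ v, Plain.Largest n F v →
        c / 2 * (n:ℝ) ^ (3/4 : ℝ) ≤ ((pinchEdges F v (η * n)).card : ℝ) ∧
          ((cutEdges F (η * n)).card : ℝ) ≤ K * (n:ℝ) ^ (3/4 : ℝ))
      have h6 : Plain.prob n (fun F => ¬ ∀ v, Plain.Largest n F v →
          c / 2 * (n:ℝ) ^ (3/4 : ℝ) ≤ ((pinchEdges F v (η * n)).card : ℝ) ∧
          ((cutEdges F (η * n)).card : ℝ) ≤ K * (n:ℝ) ^ (3/4 : ℝ)) ≤
          Pr (fun _ => (1/2:ℝ)) (RE 0 n 0 n) (fun F =>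
            (∃ v, IsMax n (↑F) v ∧ ¬ ∃ d : ℤ, ρ * n ≤ d ∧ RPinO (1/2) c E n d v (↑F)) ∨
            K * (n:ℝ) ^ (3/4 : ℝ) ≤ ((cutEdges F (η * n)).card : ℝ)) := by
        refine Plain.prob_le_of_pr ?_
        intro F hF hcon
        rw [Plain.edges_eq] at hF
        by_contra hno
        rw [not_or, not_le] at hno
        apply hcon
        intro v hv
        refine ⟨?_, hno.2.le⟩
        have h7 : ∃ d : ℤ, ρ * n ≤ d ∧ RPinO (1/2) c E n d v (↑F) := by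
          by_contra h8
          exact hno.1 ⟨v, Plain.isMax_of_largest hv, h8⟩
        obtain ⟨d, hd, h8⟩ := h7
        exact card_pinch hF (by positivity) (by linarith) h8
      have h7 := Pr_or_le okh (RE 0 n 0 n) (fun F => ∃ v, IsMax n (↑F) v ∧
        ¬ ∃ d : ℤ, ρ * n ≤ d ∧ RPinO (1/2) c E n d v (↑F))
        (fun F => K * (n:ℝ) ^ (3/4 : ℝ) ≤ ((cutEdges F (η * n)).card : ℝ))
      linarith

end Pool.Agent.W5h49.Pin
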