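import Pool.Agent.W5h49.Pin.Det
import Pool.Agent.H342R2.Per.Sum

/-!
The probability that an edge is a cut edge.
-/

set_option autoImplicit false

namespace Pool.Agent.W5h49.Pin

open H974 H12S Finset H389NS H342P
open Pool.Agent.W52.DPTwo Pool.Agent.W92.DP Pool.Agent.W822.PD

theorem exists_bd (n : ℕ) {w : Vtx} (hw : inR 0 n 0 n w) :
    ∃ x : Vtx, (x.1 = 0 ∨ x.1 = n ∨ x.2 = 0 ∨ x.2 = n) ∧ inR 0 n 0 n x ∧
      inR (w.1 - bdist n w) (w.1 + bdist n w) (w.2 - bdist n w) (w.2 + bdist n w) x := by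
  obtain ⟨x, y⟩ := w
  unfold inR at hw
  simp only at hw
  unfold bdist
  simp only
  rcases min_choice (min x ((n:ℤ) - x)) (min y (n - y)) with h | h
  · rcases min_choice x ((n:ℤ) - x) with h1 | h1
    · refine ⟨(0, y), Or.inl rfl, by unfold inR; simp only; omega, ?_⟩
      unfold inR; simp only; omega
    · refine ⟨(n, y), Or.inr (Or.inl rfl), by unfold inR; simp only; omega, ?_⟩
      unfold inR; simp only; omega
  · rcases min_choice y ((n:ℤ) - y) with h1 | h1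
    · refine ⟨(x, 0), Or.inr (Or.inr (Or.inl rfl)), by unfold inR; simp only; omega, ?_⟩
      unfold inR; simp only; omega
    · refine ⟨(x, n), Or.inr (Or.inr (Or.inr rfl)), by unfold inR; simp only; omega, ?_⟩
      unfold inR; simp only; omega

theorem okh : Ok (fun _ : Edg => (1/2:ℝ)) := fun _ => ⟨by norm_num, by norm_num⟩

/-- The bounds used: four arms in an annulus, and one arm at the boundary. -/
structure Bds (C : ℝ) : Prop where
  pos : 0 < C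
  aa : ∀ (c : ℤ × ℤ) (d k : ℕ), 1 ≤ d → d ≤ k → ∀ S : Finset Edg, blk c k ⊆ S →
    PQ (1/2) S (fun F => A4a c d k ↑F) ≤ C * ((d:ℝ) / k) ^ (5/4 : ℝ)
  hb : ∀ (n ρ k : ℕ) (x : Vtx), 1 ≤ ρ → ρ ≤ k →
    (x.1 = 0 ∨ x.1 = n ∨ x.2 = 0 ∨ x.2 = n) → inR 0 n 0 n x →
    Pr (fun _ => (1/2:ℝ)) (RE 0 n 0 n) (fun F => ∃ u v : Vtx,
      inR (x.1 - ρ) (x.1 + ρ) (x.2 - ρ) (x.2 + ρ) u ∧ Far x k v ∧ Reach (↑F) u v) ≤
        C * ((ρ:ℝ) / k) ^ (1/3 : ℝ)

theorem bds_of (h1 : St_Aa) (h2 : PD_HB) : ∃ C, Bds C := by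
  obtain ⟨C1, hC1, h1⟩ := h1
  obtain ⟨C2, hC2, h2⟩ := h2
  refine ⟨max C1 C2, lt_of_lt_of_le hC1 (le_max_left _ _), ?_, ?_⟩
  · intro c d k hd hk S hS
    exact (h1 c d k hd hk S hS).trans
      (mul_le_mul_of_nonneg_right (le_max_left _ _) (by positivity))
  · intro n ρ k x hρ hk hx hx'
    exact (h2 n ρ k x hρ hk hx hx').trans
      (mul_le_mul_of_nonneg_right (le_max_right _ _) (by positivity))

variable {C : ℝ}

theorem pr_cut_far (hB : Bds C) {n : ℕ} {e : Edg} {k : ℕ} (hk1 : 1 ≤ k)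
    (hkb : (k:ℤ) ≤ bdist n (src e)) {r : ℤ} (hkr : (k:ℤ) ≤ r) :
    Pr (fun _ => (1/2:ℝ)) (RE 0 n 0 n) (fun F => Cut r e ↑F) ≤ C * (1 / (k:ℝ)) ^ (5/4 : ℝ) := by
  have h1 := hB.aa (src e) 1 k le_rfl hk1 (RE 0 n 0 n) (box_sub hkb)
  rw [Nat.cast_one] at h1
  exact (Pr_mono okh (fun F _ hF => cut_A4a hk1 hkr hF)).trans h1

theorem armO_local (c : Vtx) (m : ℕ) (x : Vtx) (ρ : ℕ) (k : ℤ) {U F : Finset Edg} (hF : F ⊆ U) :
    ArmO c m x ρ k ↑F ↔ ArmO c m x ρ k ↑(F ∩ (U \ blk c m)) := by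
  have : ((↑F : Set Edg) \ ↑(blk c m)) = (↑(F ∩ (U \ blk c m)) : Set Edg) \ ↑(blk c m) := by
    ext g
    simp only [Set.mem_sdiff, Finset.mem_coe, Finset.mem_inter, Finset.mem_sdiff]
    constructor
    · rintro ⟨h1, h2⟩
      exact ⟨⟨h1, hF h1, h2⟩, h2⟩
    · rintro ⟨⟨h1, -, -⟩, h2⟩
      exact ⟨h1, h2⟩
  unfold ArmO
  rw [this]

theorem pr_armO (hB : Bds C) {n : ℕ} (c : Vtx) (m : ℕ) {x : Vtx} {ρ k : ℕ} (h1 : 1 ≤ ρ)
    (h2 : ρ ≤ k) (hx : x.1 = 0 ∨ x.1 = n ∨ x.2 = 0 ∨ x.2 = n) (hx' : inR 0 n 0 n x) :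
    Pr (fun _ => (1/2:ℝ)) (RE 0 n 0 n) (fun F => ArmO c m x ρ k ↑F) ≤
      C * ((ρ:ℝ) / k) ^ (1/3 : ℝ) := by
  refine (Pr_mono okh ?_).trans (hB.hb n ρ k x h1 h2 hx hx')
  rintro F - ⟨u, v, h3, h4, h5⟩
  exact ⟨u, v, h3, h4, h5.mono Set.sdiff_subset⟩

theorem pr_cut_near (hB : Bds C) {n : ℕ} {e : Edg} (he : inR 0 n 0 n (src e)) {m r : ℕ}
    (hm : (m:ℤ) = bdist n (src e)) (hr : 3 * m + 1 ≤ r) :
    Pr (fun _ => (1/2:ℝ)) (RE 0 n 0 n) (fun F => Cut r e ↑F) ≤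
      (9 * C * C + C) * (((m:ℝ) + 1) ^ (-(11/12) : ℝ) * (r:ℝ) ^ (-(1/3) : ℝ)) := by
  have hC := hB.pos
  obtain ⟨x, hx1, hx2, hx3⟩ := exists_bd n he
  rw [← hm] at hx3
  have hr0 : (0:ℝ) < r := by exact_mod_cast (by omega : 0 < r)
  have hrm : ((3 * m + 1 : ℕ) : ℝ) ≤ r := by exact_mod_cast hr
  push_cast at hrm
  rcases Nat.eq_zero_or_pos m with h0 | h0
  · subst h0
    have h1 : Pr (fun _ => (1/2:ℝ)) (RE 0 n 0 n) (fun F => Cut r e ↑F) ≤
        Pr (fun _ => (1/2:ℝ)) (RE 0 n 0 n) (fun F => ArmO (src e) 0 x 1 (r:ℕ) ↑F) :=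
      Pr_mono okh (fun F _ hF => cut_arm hF hx3 (by norm_num) (by push_cast; omega))
    have h2 := pr_armO hB (n := n) (src e) 0 (x := x) (ρ := 1) (k := r) le_rfl (by omega) hx1 hx2
    refine h1.trans (h2.trans ?_)
    rw [Nat.cast_one, Nat.cast_zero, zero_add, Real.one_rpow, one_mul, one_div,
      Real.inv_rpow hr0.le, ← Real.rpow_neg hr0.le]
    have : (0:ℝ) ≤ (r:ℝ) ^ (-(1/3):ℝ) := by positivity
    nlinarith [mul_pos hC hC]
  · have hm0 : (0:ℝ) < m := by exact_mod_cast h0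
    have hm1 : (1:ℝ) ≤ m := by exact_mod_cast h0
    have hsub : blk (src e) m ⊆ RE 0 n 0 n := box_sub hm.le
    have h1 : Pr (fun _ => (1/2:ℝ)) (RE 0 n 0 n) (fun F => Cut r e ↑F) ≤
        Pr (fun _ => (1/2:ℝ)) (RE 0 n 0 n) (fun F => A4a (src e) 1 m ↑F ∧
          ArmO (src e) m x (2 * m + 1) ((r - m : ℕ) : ℤ) ↑F) := by
      refine Pr_mono okh (fun F _ hF => ⟨cut_A4a h0 (by omega) hF, ?_⟩)
      exact cut_arm hF hx3 (by omega) (by omega)
    have h2 : Pr (fun _ => (1/2:ℝ)) (RE 0 n 0 n) (fun F => A4a (src e) 1 m ↑F ∧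
          ArmO (src e) m x (2 * m + 1) ((r - m : ℕ) : ℤ) ↑F) =
        Pr (fun _ => (1/2:ℝ)) (RE 0 n 0 n) (fun F => A4a (src e) 1 m ↑F) *
        Pr (fun _ => (1/2:ℝ)) (RE 0 n 0 n) (fun F =>
          ArmO (src e) m x (2 * m + 1) ((r - m : ℕ) : ℤ) ↑F) := by
      refine Pr_indep (S := blk (src e) m) (T := RE 0 n 0 n \ blk (src e) m) hsub
        Finset.sdiff_subset Finset.disjoint_sdiff ?_ ?_
      · intro F _
        exact A4a_local Finset.sdiff_subset F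
      · intro F hF
        exact armO_local _ _ _ _ _ hF
    have h3 := hB.aa (src e) 1 m le_rfl h0 (RE 0 n 0 n) hsub
    have h4 := pr_armO hB (n := n) (src e) m (x := x) (ρ := 2 * m + 1) (k := r - m) (by omega)
      (by omega) hx1 hx2
    rw [Nat.cast_one] at h3
    have h5 : (1 / (m:ℝ)) ^ (5/4:ℝ) ≤ 3 * ((m:ℝ) + 1) ^ (-(5/4):ℝ) := by
      have e1 : (1 / (m:ℝ)) ≤ 2 * ((m:ℝ) + 1)⁻¹ := by
        rw [div_le_iff₀ hm0, mul_comm, ← mul_assoc, ← div_eq_mul_inv, le_div_iff₀ (by linarith)]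
        linarith
      have e2 : (1 / (m:ℝ)) ^ (5/4:ℝ) ≤ (2 * ((m:ℝ) + 1)⁻¹) ^ (5/4:ℝ) :=
        Real.rpow_le_rpow (by positivity) e1 (by norm_num)
      rw [Real.mul_rpow (by norm_num) (by positivity), Real.inv_rpow (by positivity),
        ← Real.rpow_neg (by positivity)] at e2
      have e3 : (2:ℝ) ^ (5/4:ℝ) ≤ 3 := by
        have e4 : ((2:ℝ) ^ (5/4:ℝ)) ^ (4:ℕ) ≤ 3 ^ (4:ℕ) := by
          rw [← Real.rpow_natCast, ← Real.rpow_mul (by norm_num)]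
          norm_num
        exact le_of_pow_le_pow_left₀ (by norm_num) (by norm_num) e4
      exact e2.trans (mul_le_mul_of_nonneg_right e3 (by positivity))
    have h6 : (((2 * m + 1 : ℕ) : ℝ) / ((r - m : ℕ) : ℝ)) ^ (1/3:ℝ) ≤
        3 * (((m:ℝ) + 1) ^ (1/3:ℝ) * (r:ℝ) ^ (-(1/3):ℝ)) := by
      have e0 : ((r - m : ℕ) : ℝ) = (r:ℝ) - m := by
        rw [Nat.cast_sub (by omega)]
      have e1 : (((2 * m + 1 : ℕ) : ℝ) / ((r - m : ℕ) : ℝ)) ≤ 3 * ((m:ℝ) + 1) * (r:ℝ)⁻¹ := by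
        rw [e0, ← div_eq_mul_inv, div_le_div_iff₀ (by linarith) hr0]
        push_cast
        nlinarith
      have e2 := Real.rpow_le_rpow (by positivity) e1 (show (0:ℝ) ≤ 1/3 by norm_num)
      rw [Real.mul_rpow (by positivity) (by positivity), Real.mul_rpow (by norm_num)
        (by positivity), Real.inv_rpow hr0.le, ← Real.rpow_neg hr0.le, mul_assoc] at e2
      have e3 : (3:ℝ) ^ (1/3:ℝ) ≤ 3 := by
        have := Real.rpow_le_rpow_of_exponent_le (show (1:ℝ) ≤ 3 by norm_num)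
          (show (1/3:ℝ) ≤ 1 by norm_num)
        rwa [Real.rpow_one] at this
      exact e2.trans (mul_le_mul_of_nonneg_right e3 (by positivity))
    have h7 : ((m:ℝ) + 1) ^ (-(5/4):ℝ) * ((m:ℝ) + 1) ^ (1/3:ℝ) =
        ((m:ℝ) + 1) ^ (-(11/12) : ℝ) := by
      rw [← Real.rpow_add (by linarith)]
      norm_num
    refine h1.trans ?_
    rw [h2]
    have g1 := h3.trans (mul_le_mul_of_nonneg_left h5 hC.le)
    have g2 := h4.trans (mul_le_mul_of_nonneg_left h6 hC.le)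
    calc _ ≤ (C * (3 * ((m:ℝ) + 1) ^ (-(5/4):ℝ))) *
          (C * (3 * (((m:ℝ) + 1) ^ (1/3:ℝ) * (r:ℝ) ^ (-(1/3):ℝ)))) :=
          mul_le_mul g1 g2 (Pr_nonneg okh _ _) (by positivity)
      _ = 9 * C * C * ((((m:ℝ) + 1) ^ (-(5/4):ℝ) * ((m:ℝ) + 1) ^ (1/3:ℝ)) *
          (r:ℝ) ^ (-(1/3):ℝ)) := by ring
      _ = 9 * C * C * (((m:ℝ) + 1) ^ (-(11/12) : ℝ) * (r:ℝ) ^ (-(1/3) : ℝ)) := by rw [h7]
      _ ≤ (9 * C * C + C) * (((m:ℝ) + 1) ^ (-(11/12) : ℝ) * (r:ℝ) ^ (-(1/3) : ℝ)) := by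
          apply mul_le_mul_of_nonneg_right _ (by positivity)
          linarith

/-- The contribution of the edges near the boundary. -/
noncomputable def gg (r : ℕ) (j : ℤ) : ℝ :=
  if 0 ≤ j ∧ j < r then ((j:ℝ) + 1) ^ (-(11/12) : ℝ) else 0

theorem gg_nonneg (r : ℕ) (j : ℤ) : 0 ≤ gg r j := by
  unfold gg
  split_ifs with h
  · have : (0:ℝ) ≤ j := by exact_mod_cast h.1
    positivity
  · exact le_rfl

theorem pr_cut_le (hB : Bds C) {n : ℕ} {e : Edg} (he : inR 0 n 0 n (src e)) {r : ℕ}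
    (hr : 1 ≤ r) :
    Pr (fun _ => (1/2:ℝ)) (RE 0 n 0 n) (fun F => Cut r e ↑F) ≤
      9 * C * (r:ℝ) ^ (-(5/4) : ℝ) +
        (9 * C * C + C) * (r:ℝ) ^ (-(1/3) : ℝ) * gg r (bdist n (src e)) := by
  have hC := hB.pos
  have hr0 : (0:ℝ) < r := by exact_mod_cast (by omega : 0 < r)
  have hb0 : 0 ≤ bdist n (src e) := by
    unfold bdist; unfold inR at he; omega
  obtain ⟨m, hm⟩ := Int.eq_ofNat_of_zero_le hb0
  rw [hm]
  by_cases h : 3 * m + 1 ≤ r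
  · have h1 := pr_cut_near hB he hm.symm h
    have h2 : gg r (m:ℤ) = ((m:ℝ) + 1) ^ (-(11/12) : ℝ) := by
      unfold gg
      rw [if_pos ⟨by positivity, by omega⟩]
      push_cast
      rfl
    rw [h2]
    have h3 : 0 ≤ 9 * C * (r:ℝ) ^ (-(5/4) : ℝ) := by positivity
    calc _ ≤ _ := h1
      _ = (9 * C * C + C) * (r:ℝ) ^ (-(1/3) : ℝ) * ((m:ℝ) + 1) ^ (-(11/12) : ℝ) := by ring
      _ ≤ _ := by linarith
  · have hk1 : 1 ≤ min m r := by omega
    have h1 := pr_cut_far hB (n := n) (e := e) (k := min m r) hk1 (by rw [hm]; push_cast; omega)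
      (r := r) (by push_cast; omega)
    have h2 : (1 / ((min m r : ℕ):ℝ)) ^ (5/4:ℝ) ≤ 9 * (r:ℝ) ^ (-(5/4) : ℝ) := by
      have hk0 : (0:ℝ) < ((min m r : ℕ) : ℝ) := by exact_mod_cast hk1
      have e0 : r ≤ 3 * min m r := by omega
      have e0' : (r:ℝ) ≤ 3 * ((min m r : ℕ) : ℝ) := by exact_mod_cast e0
      have e1 : (1 / ((min m r : ℕ):ℝ)) ≤ 3 * (r:ℝ)⁻¹ := by
        rw [← div_eq_mul_inv, div_le_div_iff₀ hk0 hr0]
        linarith
      have e2 := Real.rpow_le_rpow (by positivity) e1 (show (0:ℝ) ≤ 5/4 by norm_num)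
      rw [Real.mul_rpow (by norm_num) (by positivity), Real.inv_rpow hr0.le,
        ← Real.rpow_neg hr0.le] at e2
      have e3 : (3:ℝ) ^ (5/4:ℝ) ≤ 9 := by
        have := Real.rpow_le_rpow_of_exponent_le (show (1:ℝ) ≤ 3 by norm_num)
          (show (5/4:ℝ) ≤ 2 by norm_num)
        refine this.trans ?_
        norm_num
      exact e2.trans (mul_le_mul_of_nonneg_right e3 (by positivity))
    have h3 : 0 ≤ (9 * C * C + C) * (r:ℝ) ^ (-(1/3) : ℝ) * gg r (m:ℤ) := by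
      have := gg_nonneg r (m:ℤ)
      positivity
    have h4 := mul_le_mul_of_nonneg_left h2 hC.le
    linarith

theorem sum_gg_le (n r : ℕ) : ∑ x ∈ Finset.Icc (0:ℤ) n, gg r x ≤ 12 * (r:ℝ) ^ (1/12 : ℝ) := by
  have key : ∀ n : ℕ, ∑ x ∈ Finset.Icc (0:ℤ) n, gg r x ≤
      ∑ j ∈ Finset.range (min (n + 1) r), ((j + 1 : ℕ) : ℝ) ^ (-(11/12) : ℝ) := by
    intro n
    induction n with
    | zero =>
      simp only [CharP.cast_eq_zero, Finset.Icc_self, Finset.sum_singleton]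
      rcases Nat.eq_zero_or_pos r with h | h
      · subst h; simp [gg]
      · have : min (0 + 1) r = 1 := by omega
        rw [this]
        unfold gg
        rw [if_pos ⟨le_rfl, by exact_mod_cast h⟩]
        simp
    | succ n ih =>
      have h1 : Finset.Icc (0:ℤ) ((n + 1 : ℕ) : ℤ) = insert ((n:ℤ) + 1) (Finset.Icc (0:ℤ) n) := by
        ext x
        simp only [Finset.mem_Icc, Finset.mem_insert]
        push_cast
        omega
      rw [h1, Finset.sum_insert (by simp)]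
      by_cases h : n + 1 < r
      · have e1 : min (n + 1 + 1) r = min (n + 1) r + 1 := by omega
        have e2 : min (n + 1) r = n + 1 := by omega
        rw [e1, Finset.sum_range_succ]
        have e3 : gg r ((n:ℤ) + 1) = ((min (n + 1) r + 1 : ℕ) : ℝ) ^ (-(11/12) : ℝ) := by
          unfold gg
          rw [if_pos ⟨by positivity, by omega⟩, e2]
          push_cast
          rfl
        rw [e3]
        linarith
      · have e1 : min (n + 1 + 1) r = min (n + 1) r := by omega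
        have e3 : gg r ((n:ℤ) + 1) = 0 := by
          unfold gg
          rw [if_neg (by omega)]
        rw [e1, e3, zero_add]
        exact ih
  refine (key n).trans ?_
  have h1 : ∑ j ∈ Finset.range (min (n + 1) r), ((j + 1 : ℕ) : ℝ) ^ (-(11/12) : ℝ) ≤
      ∑ j ∈ Finset.range r, ((j + 1 : ℕ) : ℝ) ^ (-(11/12) : ℝ) := by
    apply Finset.sum_le_sum_of_subset_of_nonneg
    · exact Finset.range_subset_range.2 (min_le_right _ _)
    · intro j _ _; positivity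
  have h2 := sum_rpow_le (s := 11/12) (by norm_num) (by norm_num) r
  refine h1.trans (h2.trans (le_of_eq ?_))
  rw [show (1:ℝ) - 11/12 = 1/12 by norm_num]
  ring

/-- The expected number of the cut edges of size `r` of the box. -/
theorem sum_cut_le (hB : Bds C) {n r : ℕ} (hr : 1 ≤ r) (hrn : r ≤ n) :
    ∑ e ∈ RE 0 n 0 n, Pr (fun _ => (1/2:ℝ)) (RE 0 n 0 n) (fun F => Cut r e ↑F) ≤
      (72 * C + 192 * (9 * C * C + C)) * ((n:ℝ) ^ 2 * (r:ℝ) ^ (-(5/4) : ℝ)) := by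
  have hC := hB.pos
  have hr0 : (0:ℝ) < r := by exact_mod_cast (by omega : 0 < r)
  have hrn' : (r:ℝ) ≤ n := by exact_mod_cast hrn
  have hn1 : (1:ℝ) ≤ n := by exact_mod_cast hr.trans hrn
  set A : ℝ := 9 * C * (r:ℝ) ^ (-(5/4) : ℝ) with hA
  set B : ℝ := (9 * C * C + C) * (r:ℝ) ^ (-(1/3) : ℝ) with hBd
  have hA0 : 0 ≤ A := by positivity
  have hB0 : 0 ≤ B := by positivity
  have h1 : ∑ e ∈ RE 0 n 0 n, Pr (fun _ => (1/2:ℝ)) (RE 0 n 0 n) (fun F => Cut r e ↑F) ≤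
      ∑ e ∈ RE 0 n 0 n, (A + B * ((gg r (src e).1 + gg r (n - (src e).1)) +
        (gg r (src e).2 + gg r (n - (src e).2)))) := by
    apply Finset.sum_le_sum
    intro e he
    refine (pr_cut_le hB (H973.mem_RE_ends he).1 hr).trans ?_
    have h2 : gg r (bdist n (src e)) ≤ (gg r (src e).1 + gg r (n - (src e).1)) +
        (gg r (src e).2 + gg r (n - (src e).2)) := by
      have g1 := gg_nonneg r (src e).1
      have g2 := gg_nonneg r (n - (src e).1)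
      have g3 := gg_nonneg r (src e).2
      have g4 := gg_nonneg r (n - (src e).2)
      unfold bdist
      rcases min_choice (min (src e).1 ((n:ℤ) - (src e).1)) (min (src e).2 (n - (src e).2))
        with h | h <;> rw [h]
      · rcases min_choice (src e).1 ((n:ℤ) - (src e).1) with h | h <;> rw [h] <;> linarith
      · rcases min_choice (src e).2 ((n:ℤ) - (src e).2) with h | h <;> rw [h] <;> linarith
    have h3 := mul_le_mul_of_nonneg_left h2 hB0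
    linarith
  have h2 := sum_RE_le n (fun u => A + B * ((gg r u.1 + gg r (n - u.1)) +
      (gg r u.2 + gg r (n - u.2)))) (by
    intro u
    have g1 := gg_nonneg r u.1
    have g2 := gg_nonneg r (n - u.1)
    have g3 := gg_nonneg r u.2
    have g4 := gg_nonneg r (n - u.2)
    positivity)
  have hc : (Finset.Icc (0:ℤ) n).card = n + 1 := by
    rw [Int.card_Icc]; omega
  have h3 : 2 * ∑ x ∈ Finset.Icc (0:ℤ) n, ∑ y ∈ Finset.Icc (0:ℤ) n,
      (A + B * ((gg r x + gg r (n - x)) + (gg r y + gg r (n - y)))) =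
      2 * ((n + 1) ^ 2 * A + B * (4 * (n + 1) * ∑ x ∈ Finset.Icc (0:ℤ) n, gg r x)) := by
    simp_rw [mul_add, Finset.sum_add_distrib, Finset.sum_const, hc, ← Finset.mul_sum,
      sum_refl n (gg r)]
    simp_rw [nsmul_eq_mul]
    have hr : ∑ x ∈ Finset.Icc (0:ℤ) n, ((n + 1 : ℕ) : ℝ) * (B * gg r (n - x)) =
        ((n + 1 : ℕ) : ℝ) * (B * ∑ x ∈ Finset.Icc (0:ℤ) n, gg r x) := by
      rw [← Finset.mul_sum, ← Finset.mul_sum, sum_refl n (gg r)]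
    have hr2 : ∑ x ∈ Finset.Icc (0:ℤ) n, ((n + 1 : ℕ) : ℝ) * (B * gg r x) =
        ((n + 1 : ℕ) : ℝ) * (B * ∑ x ∈ Finset.Icc (0:ℤ) n, gg r x) := by
      rw [← Finset.mul_sum, ← Finset.mul_sum]
    simp only [hr, hr2]
    push_cast
    ring
  have h4 := sum_gg_le n r
  refine h1.trans (h2.trans ?_)
  simp only
  rw [h3]
  have h5 : ((n:ℝ) + 1) ^ 2 ≤ 4 * (n:ℝ) ^ 2 := by nlinarith
  have h6 : (4 * ((n:ℝ) + 1) * ∑ x ∈ Finset.Icc (0:ℤ) n, gg r x) ≤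
      8 * n * (12 * (r:ℝ) ^ (1/12 : ℝ)) := by
    have h7 : 0 ≤ ∑ x ∈ Finset.Icc (0:ℤ) n, gg r x := Finset.sum_nonneg (fun x _ => gg_nonneg r x)
    have h8 : 4 * ((n:ℝ) + 1) ≤ 8 * n := by linarith
    exact mul_le_mul h8 h4 h7 (by positivity)
  have h7 : (r:ℝ) ^ (-(1/3) : ℝ) * (r:ℝ) ^ (1/12 : ℝ) ≤ n * (r:ℝ) ^ (-(5/4) : ℝ) := by
    have e1 : (r:ℝ) ^ (-(1/3) : ℝ) * (r:ℝ) ^ (1/12 : ℝ) = r * (r:ℝ) ^ (-(5/4) : ℝ) := by
      rw [← Real.rpow_add hr0]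
      nth_rewrite 2 [← Real.rpow_one (r:ℝ)]
      rw [← Real.rpow_add hr0]
      norm_num
    rw [e1]
    exact mul_le_mul_of_nonneg_right hrn' (by positivity)
  have h8 : (n + 1) ^ 2 * A ≤ 4 * (n:ℝ) ^ 2 * A := mul_le_mul_of_nonneg_right h5 hA0
  have h9 : B * (4 * ((n:ℝ) + 1) * ∑ x ∈ Finset.Icc (0:ℤ) n, gg r x) ≤
      96 * (9 * C * C + C) * (n:ℝ) * (n * (r:ℝ) ^ (-(5/4) : ℝ)) := by
    calc _ ≤ B * (8 * n * (12 * (r:ℝ) ^ (1/12 : ℝ))) := mul_le_mul_of_nonneg_left h6 hB0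
      _ = 96 * (9 * C * C + C) * (n:ℝ) * ((r:ℝ) ^ (-(1/3) : ℝ) * (r:ℝ) ^ (1/12 : ℝ)) := by
          rw [hBd]; ring
      _ ≤ _ := mul_le_mul_of_nonneg_left h7 (by positivity)
  calc _ ≤ 2 * (4 * (n:ℝ) ^ 2 * A + 96 * (9 * C * C + C) * (n:ℝ) *
        (n * (r:ℝ) ^ (-(5/4) : ℝ))) := by linarith
    _ = _ := by rw [hA]; ring

end Pool.Agent.W5h49.Pin
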